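import Pool.Agent.Lib.MP_ad84ff_co.Final

/-!
# The mean depth of `ρ0` divided by `n` converges to a limit between `0.7806` and `0.8374`
-/

set_option autoImplicit false

open Filter Topology

namespace Pool.Agent.Results.MP_ad84ff_co.LimitBounds

open Pool.Agent.Lib.MP_ad84ff_co

theorem result :
    ∃ L : ℝ, Tendsto (fun n => Dp n / (n : ℝ)) atTop (𝓝 L) ∧ 0.7806 ≤ L ∧ L ≤ 0.8374 :=
  limit_bounds

end Pool.Agent.Results.MP_ad84ff_co.LimitBounds
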