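import Pool.Agent.Lib.MP_ad84ff_coM.M31

/-!
# The increments of the mean stack-sorting depth of `ρ0` are nondecreasing
-/

set_option autoImplicit false

namespace Pool.Agent.Results.MP_ad84ff_co.MonotoneIncrements

open Pool.Agent.Lib.MP_ad84ff_co

theorem result : ∀ n : ℕ, 2 ≤ n → Dp n - Dp (n - 1) ≤ Dp (n + 1) - Dp n :=
  fun n hn => Pool.ADM.increments_monotone n hn

end Pool.Agent.Results.MP_ad84ff_co.MonotoneIncrements
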